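import Mathlib

set_option autoImplicit false

namespace Pool.Agent.Results.MP_efdca5_co.DecayCliqueCover

open SimpleGraph

universe u

variable {V : Type u}

/-- `G` is `k`-edge-connected: any two distinct vertices are joined by `k` pairwise
edge-disjoint paths. -/
def KEdgeConnected (G : SimpleGraph V) (k : ℕ) : Prop :=
  ∀ u v : V, u ≠ v → ∃ P : Fin k → G.Path u v,
    ∀ i j : Fin k, i ≠ j → ∀ e : Sym2 V,
      e ∈ (P i : G.Walk u v).edges → e ∉ (P j : G.Walk u v).edges

/-- `y_G(A) = 2 c(G - A) - |A| - 1`, where `c` is the number of connected components. -/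
noncomputable def yOf (G : SimpleGraph V) (A : Set (Sym2 V)) : ℤ :=
  2 * (Nat.card (G.deleteEdges A).ConnectedComponent : ℤ) - (A.ncard : ℤ) - 1

/-- `y_G`, the maximum of `y_G(A)` over all sets `A` of edges of `G`. -/
noncomputable def y (G : SimpleGraph V) : ℤ :=
  sSup {t : ℤ | ∃ A : Set (Sym2 V), A ⊆ G.edgeSet ∧ t = yOf G A}

/-- For a finite graph `y G` really is the maximum: it is attained and it is an upper bound. -/
theorem y_isGreatest [Finite V] (G : SimpleGraph V) :
    IsGreatest {t : ℤ | ∃ A : Set (Sym2 V), A ⊆ G.edgeSet ∧ t = yOf G A} (y G) := by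
  have hfin : {t : ℤ | ∃ A : Set (Sym2 V), A ⊆ G.edgeSet ∧ t = yOf G A}.Finite := by
    have : {t : ℤ | ∃ A : Set (Sym2 V), A ⊆ G.edgeSet ∧ t = yOf G A}
        ⊆ Set.range (fun A : Set (Sym2 V) => yOf G A) := by
      rintro t ⟨A, -, rfl⟩
      exact ⟨A, rfl⟩
    exact (Set.finite_range _).subset this
  have hne : {t : ℤ | ∃ A : Set (Sym2 V), A ⊆ G.edgeSet ∧ t = yOf G A}.Nonempty :=
    ⟨_, ∅, Set.empty_subset _, rfl⟩
  exact ⟨hne.csSup_mem hfin, fun t ht => le_csSup hfin.bddAbove ht⟩

/-- Number of connected components. -/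
noncomputable abbrev cc (G : SimpleGraph V) : ℕ := Nat.card G.ConnectedComponent

theorem cc_anti [Finite V] {G H : SimpleGraph V} (h : G ≤ H) : cc H ≤ cc G :=
  Nat.card_le_card_of_surjective _ (ConnectedComponent.surjective_map_ofLE h)

/-- If `g` separates components no more finely than reachability, the number of components is at
most the size of the target. -/
theorem cc_le_of_map {β : Type*} [Finite β] {G : SimpleGraph V} (g : V → β)
    (hg : ∀ x y, g x = g y → G.Reachable x y) : cc G ≤ Nat.card β := by
  refine Nat.card_le_card_of_injective (fun c : G.ConnectedComponent => g c.out) ?_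
  intro c d hcd
  have h := hg _ _ hcd
  have h1 : G.connectedComponentMk c.out = c := Quot.out_eq c
  have h2 : G.connectedComponentMk d.out = d := Quot.out_eq d
  rw [← h1, ← h2]
  exact ConnectedComponent.sound h

theorem cc_le_sup_edge [Finite V] (G : SimpleGraph V) (u v : V) :
    cc G ≤ cc (G ⊔ edge u v) + 1 := by
  classical
  set H := G ⊔ edge u v with hH
  -- the map identifying the component of `v` with the component of `u`
  let φ : V → G.ConnectedComponent := fun x =>
    if G.connectedComponentMk x = G.connectedComponentMk v then G.connectedComponentMk u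
    else G.connectedComponentMk x
  have hadj : ∀ x y, H.Adj x y → φ x = φ y := by
    intro x y hxy
    rw [hH, sup_adj] at hxy
    rcases hxy with h | h
    · have : G.connectedComponentMk x = G.connectedComponentMk y :=
        ConnectedComponent.sound h.reachable
      simp only [φ, this]
    · rw [edge_adj] at h
      rcases h with ⟨⟨rfl, rfl⟩ | ⟨rfl, rfl⟩, -⟩
      · simp only [φ]
        by_cases h : G.connectedComponentMk x = G.connectedComponentMk y <;> simp [h]
      · simp only [φ]
        by_cases h : G.connectedComponentMk y = G.connectedComponentMk x <;> simp [h]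
  have hreach : ∀ x y, H.Reachable x y → φ x = φ y := by
    rintro x y ⟨w⟩
    induction w with
    | nil => rfl
    | cons h _ ih => exact (hadj _ _ h).trans ih
  have hle : G ≤ H := le_sup_left
  have : cc G ≤ Nat.card (Option H.ConnectedComponent) := by
    refine Nat.card_le_card_of_injective
      (fun C : G.ConnectedComponent => if C = G.connectedComponentMk v then none
        else some (H.connectedComponentMk C.out)) ?_
    intro C D hCD
    have h1 : G.connectedComponentMk C.out = C := Quot.out_eq C
    have h2 : G.connectedComponentMk D.out = D := Quot.out_eq D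
    by_cases hC : C = G.connectedComponentMk v
    · by_cases hD : D = G.connectedComponentMk v
      · rw [hC, hD]
      · simp [hC, hD] at hCD
    · by_cases hD : D = G.connectedComponentMk v
      · simp [hC, hD] at hCD
      · simp only [hC, hD, if_false, Option.some.injEq] at hCD
        have h3 := hreach _ _ (ConnectedComponent.exact hCD)
        simp only [φ, h1, h2, hC, hD, if_false] at h3
        exact h3
  rwa [Finite.card_option] at this

theorem cc_deleteEdges_le [Finite V] (G : SimpleGraph V) (s : Set (Sym2 V)) :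
    cc (G.deleteEdges s) ≤ cc G + s.ncard := by
  classical
  have hs : s.Finite := Set.toFinite s
  induction s, hs using Set.Finite.induction_on with
  | empty => simp
  | @insert e s he hs ih =>
    rw [Set.ncard_insert_of_notMem he hs]
    induction e with
    | h u v =>
      have h1 : G.deleteEdges s ≤ G.deleteEdges (insert s(u, v) s) ⊔ edge u v := by
        intro x y hxy
        rw [deleteEdges_adj] at hxy
        rw [sup_adj, deleteEdges_adj, edge_adj]
        by_cases h : s(x, y) = s(u, v)
        · right
          refine ⟨?_, hxy.1.ne⟩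
          rw [Sym2.eq_iff] at h
          exact h
        · left
          refine ⟨hxy.1, ?_⟩
          intro h'
          rcases h' with h' | h'
          · exact h h'
          · exact hxy.2 h'
      have h2 := cc_anti h1
      have h3 := cc_le_sup_edge (G.deleteEdges (insert s(u, v) s)) u v
      omega

/-- The key inequality: if `T ≤ G` is spanning and connected then `y_G(A) ≤ c(G - E(T))`. -/
theorem yOf_le [Finite V] {G T : SimpleGraph V} (hT : T ≤ G) (hTc : T.Preconnected)
    (A : Set (Sym2 V)) : yOf G A ≤ (cc (G \ T) : ℤ) := by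
  classical
  have hA : A.Finite := Set.toFinite A
  have h1 : cc (G.deleteEdges A) ≤ 1 + (A ∩ T.edgeSet).ncard := by
    have h2 : T.deleteEdges (A ∩ T.edgeSet) ≤ G.deleteEdges A := by
      intro x y hxy
      rw [deleteEdges_adj] at hxy ⊢
      exact ⟨hT hxy.1, fun h => hxy.2 ⟨h, hxy.1⟩⟩
    have h3 := cc_anti h2
    have h4 := cc_deleteEdges_le T (A ∩ T.edgeSet)
    have h5 : cc T ≤ 1 := by
      have := hTc.subsingleton_connectedComponent
      exact Finite.card_le_one_iff_subsingleton.mpr this
    omega
  have h2 : cc (G.deleteEdges A) ≤ cc (G \ T) + (A \ T.edgeSet).ncard := by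
    have h2 : (G \ T).deleteEdges (A \ T.edgeSet) ≤ G.deleteEdges A := by
      intro x y hxy
      rw [deleteEdges_adj, sdiff_adj] at hxy
      rw [deleteEdges_adj]
      refine ⟨hxy.1.1, fun h => hxy.2 ⟨h, fun h' => hxy.1.2 h'⟩⟩
    have h3 := cc_anti h2
    have h4 := cc_deleteEdges_le (G \ T) (A \ T.edgeSet)
    omega
  have h3 : (A ∩ T.edgeSet).ncard + (A \ T.edgeSet).ncard = A.ncard :=
    Set.ncard_inter_add_ncard_sdiff_eq_ncard A T.edgeSet hA
  unfold yOf
  have : (Nat.card (G.deleteEdges A).ConnectedComponent) = cc (G.deleteEdges A) := rfl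
  rw [this]
  omega

theorem preconnected_of_adj {G T : SimpleGraph V} (hG : G.Preconnected)
    (h : ∀ x y, G.Adj x y → T.Reachable x y) : T.Preconnected := by
  intro u v
  obtain ⟨w⟩ := hG u v
  induction w with
  | nil => exact Reachable.refl _
  | cons h' _ ih => exact (h _ _ h').trans ih

/-- The graph of all edges inside a colour class that avoid the centre of the class. -/
def H0 {k : ℕ} (C : V → Fin k) (cen : Fin k → V) : SimpleGraph V where
  Adj x y := x ≠ y ∧ C x = C y ∧ x ≠ cen (C x) ∧ y ≠ cen (C y)
  symm := ⟨fun _ _ h => ⟨h.1.symm, h.2.1.symm, h.2.2.2, h.2.2.1⟩⟩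
  loopless := ⟨fun _ h => h.1 rfl⟩

/-- Replacing edges of `H0` by two-edge paths through the centre keeps connectivity. -/
theorem preconnected_sdiff_H0 {k : ℕ} {G : SimpleGraph V} {C : V → Fin k} {cen : Fin k → V}
    (hcen : ∀ v, C (cen (C v)) = C v) (hG : G.Preconnected)
    (hstar : ∀ v, v ≠ cen (C v) → G.Adj v (cen (C v))) :
    (G \ H0 C cen).Preconnected := by
  classical
  refine preconnected_of_adj hG ?_
  have key : ∀ v, (G \ H0 C cen).Reachable v (cen (C v)) := by
    intro v
    by_cases hv : v = cen (C v)
    · rw [← hv]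
    · refine Adj.reachable ?_
      rw [sdiff_adj]
      refine ⟨hstar v hv, ?_⟩
      rintro ⟨-, -, -, h⟩
      rw [hcen] at h
      exact h rfl
  intro x y hxy
  by_cases h : (H0 C cen).Adj x y
  · have h1 := key x
    have h2 := key y
    rw [← h.2.1] at h2
    exact h1.trans h2.symm
  · exact Adj.reachable (by rw [sdiff_adj]; exact ⟨hxy, h⟩)

/-- The separating map for `H0`: the colour and whether the vertex is the centre. -/
noncomputable def sep {k : ℕ} (C : V → Fin k) (cen : Fin k → V) (v : V) : Fin k × Prop :=
  (C v, v = cen (C v))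

theorem sep_reachable {k : ℕ} {C : V → Fin k} {cen : Fin k → V} {x y : V}
    (h : sep C cen x = sep C cen y) : (H0 C cen).Reachable x y := by
  classical
  simp only [sep, Prod.mk.injEq, eq_iff_iff] at h
  by_cases hx : x = cen (C x)
  · have hy := h.2.mp hx
    rw [hx, hy, h.1]
  · have hy : ¬ y = cen (C y) := fun h' => hx (h.2.mpr h')
    by_cases hxy : x = y
    · rw [hxy]
    · exact Adj.reachable ⟨hxy, h.1, hx, hy⟩

theorem card_target (k : ℕ) : Nat.card (Fin k × Prop) = 2 * k := by
  rw [Nat.card_prod]
  simp
  omega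

/-- A colouring of the complement is a clique cover. -/
theorem adj_of_color {k : ℕ} {G : SimpleGraph V} (C : Gᶜ.Coloring (Fin k)) {x y : V}
    (hxy : x ≠ y) (h : C x = C y) : G.Adj x y := by
  by_contra hG
  exact C.valid ((compl_adj G x y).mpr ⟨hxy, hG⟩) h

/-- In a complete graph with at least four vertices there is a spanning connected subgraph with
connected complement. -/
theorem exists_H1 [Finite V] (h4 : 4 ≤ Nat.card V) :
    ∃ H : SimpleGraph V, H.Preconnected ∧ ((⊤ : SimpleGraph V) \ H).Preconnected := by
  classical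
  have := Fintype.ofFinite V
  rw [Nat.card_eq_fintype_card] at h4
  obtain ⟨s, -, hs⟩ := Finset.exists_subset_card_eq (s := (Finset.univ : Finset V)) (n := 4)
    (by simpa using h4)
  obtain ⟨a, b, c, d, hab, hac, had, hbc, hbd, hcd, -⟩ := Finset.card_eq_four.mp hs
  let R : V → V → Prop := fun x y =>
    (x = a ∧ y = c) ∨ (x = a ∧ y = d) ∨ (x = b ∧ y = d) ∨
      (x = b ∧ y ≠ a ∧ y ≠ b ∧ y ≠ c ∧ y ≠ d)
  let H : SimpleGraph V := SimpleGraph.fromRel R
  have hadj : ∀ x y, H.Adj x y ↔ x ≠ y ∧ (R x y ∨ R y x) := fun x y =>
    SimpleGraph.fromRel_adj R x y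
  refine ⟨H, ?_, ?_⟩
  · have hbd' : H.Reachable b d := Adj.reachable ((hadj b d).mpr ⟨hbd, Or.inl (by simp [R])⟩)
    have had' : H.Reachable a d := Adj.reachable ((hadj a d).mpr ⟨had, Or.inl (by simp [R])⟩)
    have hac' : H.Reachable a c := Adj.reachable ((hadj a c).mpr ⟨hac, Or.inl (by simp [R])⟩)
    have key : ∀ v, H.Reachable b v := by
      intro v
      by_cases hva : v = a
      · rw [hva]; exact hbd'.trans had'.symm
      by_cases hvb : v = b
      · rw [hvb]
      by_cases hvc : v = c
      · rw [hvc]; exact (hbd'.trans had'.symm).trans hac'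
      by_cases hvd : v = d
      · rw [hvd]; exact hbd'
      · exact Adj.reachable ((hadj b v).mpr ⟨fun h => hvb h.symm,
          Or.inl (Or.inr (Or.inr (Or.inr ⟨rfl, hva, hvb, hvc, hvd⟩)))⟩)
    intro u v
    exact (key u).symm.trans (key v)
  · have hT : ∀ x y, x ≠ y → ¬ R x y → ¬ R y x → ((⊤ : SimpleGraph V) \ H).Reachable x y := by
      intro x y hxy h1 h2
      refine Adj.reachable ?_
      rw [sdiff_adj, hadj]
      exact ⟨hxy, fun h => h.2.elim h1 h2⟩
    have hab' := hT a b hab (by simp [R, hab, hab.symm, hbc, hbd]) (by simp [R, hab, hab.symm, hac, had])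
    have hbc' := hT b c hbc (by simp [R, hab.symm, hcd])
      (by simp [R, hac.symm, hbc.symm])
    have hcd' := hT c d hcd (by simp [R, hac.symm, hbc.symm])
      (by simp [R, had.symm, hbd.symm])
    have key : ∀ v, ((⊤ : SimpleGraph V) \ H).Reachable a v := by
      intro v
      by_cases hva : v = a
      · rw [hva]
      by_cases hvb : v = b
      · rw [hvb]; exact hab'
      by_cases hvc : v = c
      · rw [hvc]; exact hab'.trans hbc'
      by_cases hvd : v = d
      · rw [hvd]; exact (hab'.trans hbc').trans hcd'
      · exact hT a v (fun h => hva h.symm) (by simp [R, hab, hvc, hvd]) (by simp [R, hva, hvb])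
    intro u v
    exact (key u).symm.trans (key v)

/-- Two edge-disjoint paths between any two vertices: deleting one edge keeps connectivity. -/
theorem KEdgeConnected.deleteEdge {G : SimpleGraph V} (h : KEdgeConnected G 2) (e : Sym2 V) :
    (G.deleteEdges {e}).Preconnected := by
  classical
  intro u v
  by_cases huv : u = v
  · rw [huv]
  obtain ⟨P, hP⟩ := h u v huv
  by_cases h0 : e ∈ (P 0 : G.Walk u v).edges
  · have h1 := hP 0 1 (by decide) e h0
    refine ⟨(P 1 : G.Walk u v).toDeleteEdges {e} ?_⟩
    intro f hf hfe
    rw [Set.mem_singleton_iff] at hfe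
    exact h1 (hfe ▸ hf)
  · refine ⟨(P 0 : G.Walk u v).toDeleteEdges {e} ?_⟩
    intro f hf hfe
    rw [Set.mem_singleton_iff] at hfe
    exact h0 (hfe ▸ hf)

theorem KEdgeConnected.preconnected {G : SimpleGraph V} {k : ℕ} (hk : 0 < k)
    (h : KEdgeConnected G k) : G.Preconnected := by
  intro u v
  by_cases huv : u = v
  · rw [huv]
  obtain ⟨P, -⟩ := h u v huv
  exact ⟨(P ⟨0, hk⟩ : G.Walk u v)⟩

/-- The bound for connected graphs: `y_G ≤ 2k` whenever `V(G)` is covered by `k` cliques. -/
theorem yOf_le_two_mul [Finite V] {G : SimpleGraph V} (hG : G.Preconnected) {k : ℕ}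
    (C : Gᶜ.Coloring (Fin k)) (A : Set (Sym2 V)) : yOf G A ≤ 2 * (k : ℤ) := by
  classical
  rcases isEmpty_or_nonempty V with hV | hV
  · have h0 : Nat.card (G.deleteEdges A).ConnectedComponent = 0 := by
      have : IsEmpty (G.deleteEdges A).ConnectedComponent :=
        ⟨fun c => hV.elim c.out⟩
      exact Nat.card_of_isEmpty
    unfold yOf
    rw [h0]
    omega
  · let cen : Fin k → V := Function.invFun C
    have hcen : ∀ v, C (cen (C v)) = C v := fun v => Function.invFun_eq ⟨v, rfl⟩
    have hT := preconnected_sdiff_H0 (cen := cen) hcen hG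
      (fun v hv => adj_of_color C hv (hcen v).symm)
    have h1 := yOf_le (sdiff_le : G \ H0 C cen ≤ G) hT A
    have h2 : G \ (G \ H0 C cen) = H0 C cen := by
      rw [sdiff_sdiff_right_self]
      refine inf_eq_right.mpr ?_
      intro x y hxy
      exact adj_of_color C hxy.1 hxy.2.1
    rw [h2] at h1
    have h3 : cc (H0 (C : V → Fin k) cen) ≤ 2 * k := by
      rw [← card_target k]
      exact cc_le_of_map (sep C cen) (fun x y h => sep_reachable h)
    have : ((cc (H0 (C : V → Fin k) cen) : ℕ) : ℤ) ≤ ((2 * k : ℕ) : ℤ) := by exact_mod_cast h3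
    push_cast at this
    omega

/-- The bound for 2-edge-connected graphs other than the triangle. -/
theorem yOf_le_two_mul_sub [Finite V] {G : SimpleGraph V} (hG : KEdgeConnected G 2)
    (hC3 : ¬ Nonempty (G ≃g cycleGraph 3)) {k : ℕ}
    (C : Gᶜ.Coloring (Fin k)) (A : Set (Sym2 V)) : yOf G A ≤ 2 * (k : ℤ) - 1 := by
  classical
  have := Fintype.ofFinite V
  have hpre : G.Preconnected := hG.preconnected (by norm_num)
  rcases isEmpty_or_nonempty V with hV | hV
  · have h0 : Nat.card (G.deleteEdges A).ConnectedComponent = 0 := by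
      have : IsEmpty (G.deleteEdges A).ConnectedComponent :=
        ⟨fun c => hV.elim c.out⟩
      exact Nat.card_of_isEmpty
    unfold yOf
    rw [h0]
    omega
  by_cases hmono : ∀ x y, C x = C y
  · -- `G` is complete
    have htop : G = ⊤ := by
      ext x y
      rw [top_adj]
      exact ⟨fun h => h.ne, fun h => adj_of_color C h (hmono x y)⟩
    have hk : 1 ≤ k := by
      obtain ⟨v⟩ := hV
      have := (C v).2
      omega
    suffices h : yOf G A ≤ 1 by omega
    by_cases h4 : 4 ≤ Nat.card V
    · obtain ⟨H, hH1, hH2⟩ := exists_H1 h4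
      rw [← htop] at hH2
      have h1 := yOf_le (sdiff_le : G \ H ≤ G) hH2 A
      have h2 : G \ (G \ H) = H := by
        rw [sdiff_sdiff_right_self]
        refine inf_eq_right.mpr ?_
        rw [htop]
        exact le_top
      rw [h2] at h1
      have h3 : cc H ≤ 1 := by
        have := hH1.subsingleton_connectedComponent
        exact Finite.card_le_one_iff_subsingleton.mpr this
      omega
    · have hcard : Fintype.card V ≤ 3 := by
        rw [Nat.card_eq_fintype_card] at h4
        omega
      have hpos : 0 < Fintype.card V := Fintype.card_pos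
      have hne3 : Fintype.card V ≠ 3 := by
        intro h3
        apply hC3
        have e : V ≃ Fin 3 := Fintype.equivFinOfCardEq h3
        refine ⟨⟨e, ?_⟩⟩
        intro a b
        rw [htop, top_adj]
        have : cycleGraph 3 = ⊤ := cycleGraph_three_eq_top
        rw [this, top_adj]
        exact e.injective.ne_iff
      have hne2 : Fintype.card V ≠ 2 := by
        intro h2
        obtain ⟨a, b, hab⟩ := Fintype.exists_pair_of_one_lt_card (α := V) (by omega)
        have hD := hG.deleteEdge s(a, b)
        have hnt : Nontrivial V := ⟨a, b, hab⟩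
        obtain ⟨w, hw⟩ := hD.exists_adj_of_nontrivial a
        rw [deleteEdges_adj] at hw
        have hwa : w ≠ a := hw.1.ne'
        have hwb : w ≠ b := by
          rintro rfl
          exact hw.2 rfl
        have h3 : ({a, b, w} : Finset V).card = 3 := by
          rw [Finset.card_eq_three]
          exact ⟨a, b, w, hab, hwa.symm, hwb.symm, rfl⟩
        have h4 := Finset.card_le_univ ({a, b, w} : Finset V)
        omega
      have hcard1 : Fintype.card V = 1 := by omega
      have : Subsingleton V := Fintype.card_le_one_iff_subsingleton.mp (by omega)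
      have h5 : cc (G.deleteEdges A) ≤ 1 := by
        refine Finite.card_le_one_iff_subsingleton.mpr ?_
        exact Preconnected.subsingleton_connectedComponent (Preconnected.of_subsingleton)
      unfold yOf
      have : (Nat.card (G.deleteEdges A).ConnectedComponent) = cc (G.deleteEdges A) := rfl
      rw [this]
      omega
  · push Not at hmono
    obtain ⟨u, v, huv⟩ := hmono
    -- an edge between two different classes
    obtain ⟨x, y, hxy, hC⟩ : ∃ x y, G.Adj x y ∧ C x ≠ C y := by
      by_contra hcon
      push Not at hcon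
      apply huv
      obtain ⟨w⟩ := hpre u v
      clear huv
      induction w with
      | nil => rfl
      | cons h' _ ih => exact (hcon _ _ h').trans ih
    let cen : Fin k → V := Function.invFun C
    have hcen : ∀ v, C (cen (C v)) = C v := fun v => Function.invFun_eq ⟨v, rfl⟩
    have hT : ((G.deleteEdges {s(x, y)}) \ H0 C cen).Preconnected := by
      refine preconnected_sdiff_H0 (cen := cen) hcen (hG.deleteEdge s(x, y)) ?_
      intro v hv
      rw [deleteEdges_adj]
      refine ⟨adj_of_color C hv (hcen v).symm, ?_⟩
      intro h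
      rw [Set.mem_singleton_iff, Sym2.eq_iff] at h
      rcases h with ⟨h1, h2⟩ | ⟨h1, h2⟩
      · exact hC (by rw [← h1, ← h2, hcen])
      · exact hC (by rw [← h1, ← h2, hcen])
    have hTle : (G.deleteEdges {s(x, y)}) \ H0 C cen ≤ G :=
      sdiff_le.trans (deleteEdges_le _)
    have h1 := yOf_le hTle hT A
    set K : SimpleGraph V := G \ ((G.deleteEdges {s(x, y)}) \ H0 C cen) with hK
    have hKxy : K.Reachable x y := by
      refine Adj.reachable ?_
      rw [hK, sdiff_adj]
      refine ⟨hxy, ?_⟩
      rw [sdiff_adj, deleteEdges_adj]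
      rintro ⟨⟨-, h⟩, -⟩
      exact h rfl
    have hH0K : H0 C cen ≤ K := by
      intro a b hab
      rw [hK, sdiff_adj]
      refine ⟨adj_of_color C hab.1 hab.2.1, ?_⟩
      rw [sdiff_adj]
      exact fun h => h.2 hab
    have hsepne : sep (C : V → Fin k) cen x ≠ sep C cen y := fun h => hC (Prod.ext_iff.mp h).1
    -- the separating map avoiding the value at `y`
    let g : V → {p : Fin k × Prop // p ≠ sep C cen y} := fun v =>
      if h : sep C cen v = sep C cen y then ⟨sep C cen x, hsepne⟩ else ⟨sep C cen v, h⟩
    have hg : ∀ a b, g a = g b → K.Reachable a b := by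
      have hr : ∀ a b, sep C cen a = sep C cen b → K.Reachable a b :=
        fun a b h => (sep_reachable h).mono hH0K
      intro a b hab
      by_cases ha : sep C cen a = sep C cen y
      · by_cases hb : sep C cen b = sep C cen y
        · exact hr a b (ha.trans hb.symm)
        · simp only [g, ha, hb, dif_pos, dif_neg, not_false_eq_true, Subtype.mk.injEq] at hab
          exact ((hr a y ha).trans hKxy.symm).trans (hr x b hab)
      · by_cases hb : sep C cen b = sep C cen y
        · simp only [g, ha, hb, dif_pos, dif_neg, not_false_eq_true, Subtype.mk.injEq] at hab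
          exact ((hr a x hab).trans hKxy).trans (hr b y hb).symm
        · simp only [g, ha, hb, dif_neg, not_false_eq_true, Subtype.mk.injEq] at hab
          exact hr a b hab
    have h3 := cc_le_of_map g hg
    have h4 : Nat.card {p : Fin k × Prop // p ≠ sep C cen y} + 1 = 2 * k := by
      rw [← card_target k]
      have h5 := Nat.card_congr (Equiv.sumCompl (fun p : Fin k × Prop => p = sep C cen y))
      rw [Nat.card_sum] at h5
      have h6 : Nat.card {p : Fin k × Prop // p = sep C cen y} = 1 := by
        simp
      rw [h6] at h5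
      rw [← h5, add_comm]
    have h5 : cc K + 1 ≤ 2 * k := by
      rw [← h4]
      exact Nat.add_le_add_right h3 1
    have h6 : ((cc K : ℕ) : ℤ) + 1 ≤ 2 * (k : ℤ) := by exact_mod_cast h5
    omega

/-- **Full answer to Q1 and Q2.** For `lam ∈ {1,2}` and every finite `lam`-edge-connected graph `G`
not isomorphic to `C₃` (planar or not), `y_G ≤ 2 χ(Gᶜ) - lam + 1`. -/
theorem result {V : Type u} [Finite V] (G : SimpleGraph V) (lam : ℕ)
    (hlam : lam = 1 ∨ lam = 2) (hG : KEdgeConnected G lam)
    (hC3 : ¬ Nonempty (G ≃g cycleGraph 3)) :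
    y G ≤ 2 * ((Gᶜ.chromaticNumber.toNat : ℕ) : ℤ) - (lam : ℤ) + 1 := by
  classical
  obtain ⟨A, -, hA⟩ := (y_isGreatest G).1
  rw [hA]
  have hcol : Gᶜ.Colorable (Gᶜ.chromaticNumber.toNat) := by
    have h1 : Gᶜ.chromaticNumber ≠ ⊤ := by
      have := Fintype.ofFinite V
      exact chromaticNumber_ne_top_iff_exists.mpr ⟨_, Gᶜ.colorable_of_fintype⟩
    have h2 : ((Gᶜ.chromaticNumber.toNat : ℕ) : ℕ∞) = Gᶜ.chromaticNumber :=
      ENat.natCast_toNat h1
    exact chromaticNumber_le_iff_colorable.mp h2.ge
  obtain ⟨C⟩ := hcol
  rcases hlam with rfl | rfl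
  · have h := yOf_le_two_mul (hG.preconnected (by norm_num)) C A
    push_cast
    omega
  · have h := yOf_le_two_mul_sub hG hC3 C A
    push_cast
    omega

end Pool.Agent.Results.MP_efdca5_co.DecayCliqueCover
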